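import Mathlib

namespace Pool.Agent.Results.MP_1a6900_co.WidePacking

open Finset

abbrev E (n : ℕ) := EuclideanSpace ℝ (Fin n)

/-- The vertices of the unit cube. -/
def cube (n : ℕ) : Set (E n) := {x | ∀ i, x i = 0 ∨ x i = 1}

/-- The width of a set: the minimum over unit vectors `u` of `max ⟨u,x⟩ - min ⟨u,x⟩`. -/
noncomputable def width {n : ℕ} (C : Set (E n)) : ℝ :=
  ⨅ u : Metric.sphere (0 : E n) 1,
    (sSup ((fun x => inner ℝ (u : E n) x) '' C) - sInf ((fun x => inner ℝ (u : E n) x) '' C))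

/-- The largest number of pairwise disjoint nonempty subsets of the cube whose convex hulls all
have width at least `t`. -/
noncomputable def N (n : ℕ) (t : ℝ) : ℕ :=
  sSup {k | ∃ P : Finset (Set (E n)), P.card = k ∧ (P : Set (Set (E n))).PairwiseDisjoint id ∧
    ∀ A ∈ P, A.Nonempty ∧ A ⊆ cube n ∧ t ≤ width (convexHull ℝ A)}

def χ (a : ZMod 2) : ℝ := if a = 0 then 1 else -1

theorem z2 (a : ZMod 2) : a = 0 ∨ a = 1 := by revert a; decide

theorem χ_add (a b : ZMod 2) : χ (a + b) = χ a * χ b := by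
  have : (1 : ZMod 2) + 1 = 0 := by decide
  rcases z2 a with rfl | rfl <;> rcases z2 b with rfl | rfl <;> simp [χ, this]

theorem χ_sq (a : ZMod 2) : χ a * χ a = 1 := by rcases z2 a with rfl | rfl <;> simp [χ]

theorem χ_sum {k : ℕ} {h : Fin k → ZMod 2} (hh : h ≠ 0) : ∑ a : Fin k → ZMod 2, χ (a ⬝ᵥ h) = 0 := by
  obtain ⟨j, hj⟩ := Function.ne_iff.1 hh
  have h1 : h j = 1 := (z2 _).resolve_left hj
  have := Equiv.sum_comp (Equiv.addRight (Pi.single j (1 : ZMod 2) : Fin k → ZMod 2))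
    (fun a => χ (a ⬝ᵥ h))
  simp only [Equiv.coe_addRight, add_dotProduct, single_dotProduct, h1, χ_add, ← sum_mul] at this
  simp [χ] at this ⊢
  linarith

noncomputable def p {n : ℕ} (z : Fin n → ZMod 2) : E n := WithLp.toLp 2 (fun i => (1 - χ (z i)) / 2)

theorem p_mem {n : ℕ} (z : Fin n → ZMod 2) : p z ∈ cube n := fun i => by
  rcases z2 (z i) with h | h <;> simp [p, χ, h]

theorem p_inj {n : ℕ} : Function.Injective (p (n := n)) := fun z w h => funext fun i => by
  have := congrArg (fun x : E n => x i) h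
  rcases z2 (z i) with a | a <;> rcases z2 (w i) with b | b <;> simp [p, χ, a, b] at this ⊢

theorem cube_eq (n : ℕ) : cube n = Set.range p := by
  refine Set.Subset.antisymm (fun x hx => ⟨fun i => if x i = 0 then 0 else 1, ?_⟩)
    (by rintro _ ⟨z, rfl⟩; exact p_mem z)
  ext i
  rcases hx i with h | h <;> simp [p, χ, h]

theorem bdd {n : ℕ} {A : Set (E n)} (hA : A ⊆ cube n) (u : E n) :
    BddAbove ((fun x => inner ℝ u x) '' convexHull ℝ A) ∧
    BddBelow ((fun x => inner ℝ u x) '' convexHull ℝ A) := by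
  have h := (((Set.finite_range p).subset (cube_eq n ▸ hA)).isCompact_convexHull ℝ).image
    (f := fun x => inner ℝ u x) (by fun_prop)
  exact ⟨h.bddAbove, h.bddBelow⟩

theorem big {n : ℕ} {A : Finset (E n)} (hA : ↑A ⊆ cube n) (h0 : A.Nonempty)
    (h : 0 < width (convexHull ℝ (A : Set (E n)))) : n + 1 ≤ A.card := by
  classical
  by_contra hc
  obtain ⟨x, hx⟩ := h0
  have h1 := finrank_span_finset_le_card (R := ℝ) ((A.erase x).image (· - x))
  have h2 : ((A.erase x).image (· - x)).card ≤ A.card - 1 := card_erase_of_mem hx ▸ card_image_le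
  have h3 := card_pos.2 ⟨x, hx⟩
  have h4 : Submodule.span ℝ (((A.erase x).image (· - x) : Finset (E n)) : Set (E n)) ≠ ⊤ := by
    intro e
    rw [Set.finrank, e, finrank_top, finrank_euclideanSpace_fin] at h1
    omega
  obtain ⟨v, hv, v0⟩ := Submodule.exists_mem_ne_zero_of_ne_bot
    (mt Submodule.orthogonal_eq_bot_iff.1 h4)
  have hu : ‖v‖⁻¹ • v ∈ Metric.sphere (0 : E n) 1 := by
    simp [norm_smul, inv_mul_cancel₀ (norm_ne_zero_iff.2 v0)]
  have h5 : convexHull ℝ (A : Set (E n)) ⊆ {y | inner ℝ v y = inner ℝ v x} := by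
    refine convexHull_min (fun y hy => ?_) (convex_hyperplane (innerₛₗ ℝ v).isLinear _)
    by_cases e : y = x
    · rw [e]; rfl
    · have := Submodule.inner_left_of_mem_orthogonal (Submodule.subset_span
        (mem_coe.2 (mem_image_of_mem (· - x) (mem_erase.2 ⟨e, hy⟩)))) hv
      rw [inner_sub_right] at this
      exact sub_eq_zero.1 this
  have h6 : (fun y => inner ℝ (‖v‖⁻¹ • v) y) '' convexHull ℝ (A : Set (E n)) =
      {inner ℝ (‖v‖⁻¹ • v) x} := by
    refine Set.eq_singleton_iff_unique_mem.2 ⟨⟨x, subset_convexHull _ _ hx, rfl⟩, ?_⟩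
    rintro _ ⟨y, hy, rfl⟩
    simp only [real_inner_smul_left]
    rw [h5 hy]
  refine absurd h (not_lt.2 ((ciInf_le ⟨0, ?_⟩ ⟨_, hu⟩).trans (by simp only [h6]; simp)))
  rintro _ ⟨u, rfl⟩
  exact sub_nonneg.2 (Real.sInf_le_sSup _ (bdd hA u).2 (bdd hA u).1)

theorem upper {n k : ℕ} {t : ℝ} (ht : 0 < t) (h : ∃ P : Finset (Set (E n)), P.card = k ∧
    (P : Set (Set (E n))).PairwiseDisjoint id ∧
    ∀ A ∈ P, A.Nonempty ∧ A ⊆ cube n ∧ t ≤ width (convexHull ℝ A)) : k * (n + 1) ≤ 2 ^ n := by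
  classical
  obtain ⟨P, rfl, h1, h2⟩ := h
  let F : Set (E n) → Finset (E n) := fun A => (univ.image p).filter (· ∈ A)
  have hF : ∀ A ∈ P, (F A : Set (E n)) = A := fun A hA => by
    ext x
    have h3 : A ⊆ Set.range p := cube_eq n ▸ (h2 A hA).2.1
    have := @h3 x
    simp only [F, coe_filter, mem_image, mem_univ, true_and, Set.mem_ofPred_eq]
    exact ⟨fun h => h.2, fun h => ⟨this h, h⟩⟩
  calc P.card * (n + 1) ≤ ∑ A ∈ P, (F A).card := by
        rw [← smul_eq_mul]
        refine card_nsmul_le_sum _ _ _ (fun A hA => big ?_ ?_ ?_)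
        · rw [hF A hA]; exact (h2 A hA).2.1
        · rw [← coe_nonempty, hF A hA]; exact (h2 A hA).1
        · rw [hF A hA]; exact ht.trans_le (h2 A hA).2.2
    _ = (P.biUnion F).card := by
        refine (card_biUnion (fun A hA B hB e => ?_)).symm
        rw [Function.onFun, ← disjoint_coe, hF A hA, hF B hB]
        exact h1 hA hB e
    _ ≤ (univ.image (p (n := n))).card :=
        card_le_card (biUnion_subset.2 (fun _ _ => filter_subset _ _))
    _ ≤ 2 ^ n := card_image_le.trans (by simp)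

theorem wide {n k : ℕ} (hn : 1 ≤ n) {h : Fin n → Fin k → ZMod 2} (h0 : ∀ i, h i ≠ 0)
    (h1 : Function.Injective h) (z : Fin n → ZMod 2) :
    1 ≤ width (convexHull ℝ (Set.range (fun a : Fin k → ZMod 2 => p (fun i => z i + a ⬝ᵥ h i)))) := by
  have : Nonempty (Metric.sphere (0 : E n) 1) :=
    ⟨⟨EuclideanSpace.single ⟨0, hn⟩ 1, by simp⟩⟩
  refine le_ciInf (fun u => ?_)
  obtain ⟨u, hu⟩ := u
  have hb := bdd (A := Set.range (fun a : Fin k → ZMod 2 => p (fun i => z i + a ⬝ᵥ h i)))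
    (by rintro _ ⟨a, rfl⟩; exact p_mem _) u
  have hu2 : ∑ i, u i * u i = 1 := by
    have : ‖u‖ = 1 := by simpa using hu
    have h2 := EuclideanSpace.real_norm_sq_eq u
    rw [this] at h2
    simpa [sq] using h2.symm
  let g : (Fin k → ZMod 2) → ℝ := fun a => ∑ i, u i * χ (z i) * χ (a ⬝ᵥ h i)
  have hg : ∀ a, inner ℝ u (p (fun i => z i + a ⬝ᵥ h i)) = (∑ i, u i - g a) / 2 := fun a => by
    simp only [p, g, PiLp.inner_apply, χ_add, ← sum_sub_distrib, sum_div]
    exact sum_congr rfl (fun i _ => by simp; ring)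
  have g1 : ∑ a, g a = 0 := by
    simp only [g]
    rw [sum_comm]
    exact sum_eq_zero (fun i _ => by rw [← mul_sum, χ_sum (h0 i), mul_zero])
  have g2 : ∑ a, g a * g a = ∑ a : Fin k → ZMod 2, (1 : ℝ) := by
    simp only [g, sum_mul_sum]
    rw [sum_comm, ← one_mul (∑ a : Fin k → ZMod 2, (1 : ℝ)), ← hu2, sum_mul]
    refine sum_congr rfl (fun i _ => ?_)
    rw [sum_comm, sum_eq_single i]
    · rw [hu2, mul_sum]
      refine sum_congr rfl (fun a _ => ?_)
      have := χ_sq (z i)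
      have := χ_sq (a ⬝ᵥ h i)
      grind
    · intro j _ hj
      have e : h i + h j ≠ 0 := fun e => hj (h1 (funext fun l => by
        have := congrFun e l
        revert this
        simp only [Pi.add_apply, Pi.zero_apply]
        generalize h i l = a, h j l = b
        revert a b
        decide))
      have := χ_sum e
      simp only [dotProduct_add, χ_add] at this
      rw [← mul_zero (u i * χ (z i) * (u j * χ (z j))), ← this, mul_sum]
      exact sum_congr rfl (fun a _ => by ring)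
    · simp
  have a1 := fun a => le_csSup hb.1 ⟨_, subset_convexHull ℝ _ ⟨a, rfl⟩, hg a⟩
  have a2 := fun a => csInf_le hb.2 ⟨_, subset_convexHull ℝ _ ⟨a, rfl⟩, hg a⟩
  dsimp only
  generalize (fun x => inner ℝ u x) '' convexHull ℝ (Set.range
    (fun a : Fin k → ZMod 2 => p (fun i => z i + a ⬝ᵥ h i))) = S at *
  generalize sSup S = M at *
  generalize sInf S = m at *
  generalize ∑ i, u i = s at *
  have a3 : 0 ≤ ∑ a, (g a - (s - 2 * M)) * ((s - 2 * m) - g a) :=
    sum_nonneg (fun a _ => mul_nonneg (by linarith [a1 a]) (by linarith [a2 a]))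
  have a4 : ∑ a, (g a - (s - 2 * M)) * ((s - 2 * m) - g a) =
      ((s - 2 * M) + (s - 2 * m)) * ∑ a, g a - ∑ a, g a * g a -
        (s - 2 * M) * (s - 2 * m) * ∑ a : Fin k → ZMod 2, (1 : ℝ) := by
    simp only [mul_sum, ← sum_sub_distrib]
    exact sum_congr rfl (fun a _ => by ring)
  have a5 : (0 : ℝ) < ∑ a : Fin k → ZMod 2, (1 : ℝ) := by simp
  rw [a4, g1, g2] at a3
  have a6 : 1 + (s - 2 * M) * (s - 2 * m) ≤ 0 := by
    by_contra c
    nlinarith
  have a7 := (a2 0).trans (a1 0)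
  by_contra c
  nlinarith [sq_nonneg (s - M - m)]

theorem result (n : ℕ) (hn : 1 ≤ n) (t : ℝ) (ht : 0 < t) (ht1 : t ≤ 1) :
    2 ^ n ≤ N n t * (2 * n) ∧ N n t * (n + 1) ≤ 2 ^ n := by
  classical
  have hb : BddAbove {k | ∃ P : Finset (Set (E n)), P.card = k ∧
      (P : Set (Set (E n))).PairwiseDisjoint id ∧
      ∀ A ∈ P, A.Nonempty ∧ A ⊆ cube n ∧ t ≤ width (convexHull ℝ A)} :=
    ⟨2 ^ n, fun k hk => le_trans (Nat.le_mul_of_pos_right _ (by omega)) (upper ht hk)⟩
  refine ⟨?_, upper ht (Nat.sSup_mem ⟨0, by exact ⟨∅, by simp⟩⟩ hb)⟩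
  have k1 := Nat.lt_pow_succ_log_self one_lt_two n
  have k2 := Nat.pow_log_le_self 2 (x := n) (by omega)
  generalize Nat.log 2 n = k at k1 k2
  obtain ⟨h⟩ := Function.Embedding.nonempty_of_card_le (α := Fin n)
    (β := {v : Fin (k + 1) → ZMod 2 // v ≠ 0}) (by simp [Nat.succ_eq_add_one] at k1 ⊢; omega)
  let O : (Fin n → ZMod 2) → Set (E n) := fun z =>
    Set.range (fun a : Fin (k + 1) → ZMod 2 => p (fun i => z i + a ⬝ᵥ (h i).1))
  have hO : ∀ z w, p w ∈ O z → O z ⊆ O w := by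
    rintro z w ⟨a, ha⟩ _ ⟨b, rfl⟩
    refine ⟨b - a, ?_⟩
    rw [← p_inj ha]
    simp only [sub_dotProduct]
    congr 1; funext i; ring
  have hO2 : ∀ z w, p w ∈ O z → O w ⊆ O z := by
    rintro z w ⟨a, ha⟩ _ ⟨b, rfl⟩
    refine ⟨b + a, ?_⟩
    rw [← p_inj ha]
    simp only [add_dotProduct]
    congr 1; funext i; ring
  have h1 : (univ.image O).card ≤ N n t := by
    refine le_csSup hb ⟨_, rfl, ?_, ?_⟩
    · intro A hA B hB e
      obtain ⟨z, -, rfl⟩ := mem_image.1 hA
      obtain ⟨w, -, rfl⟩ := mem_image.1 hB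
      refine Set.disjoint_left.2 (fun x hx hy => e ?_)
      obtain ⟨a, rfl⟩ := id hx
      exact ((hO _ _ hx).trans (hO2 _ _ hy)).antisymm ((hO _ _ hy).trans (hO2 _ _ hx))
    · intro A hA
      obtain ⟨z, -, rfl⟩ := mem_image.1 hA
      exact ⟨Set.range_nonempty _, by rintro _ ⟨a, rfl⟩; exact p_mem _,
        ht1.trans (wide hn (fun i => (h i).2) (Subtype.val_injective.comp h.injective) z)⟩
  have h2 := card_le_mul_card_image (f := O) univ (2 ^ (k + 1)) (fun A hA => by
    obtain ⟨z, -, rfl⟩ := mem_image.1 hA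
    refine le_trans (card_le_card (t := univ.image
      (fun (a : Fin (k + 1) → ZMod 2) i => z i + a ⬝ᵥ (h i).1)) (fun w hw => ?_))
      (card_image_le.trans (by simp))
    have : p w ∈ O z := (mem_filter.1 hw).2 ▸ ⟨0, by simp⟩
    obtain ⟨a, ha⟩ := this
    exact mem_image.2 ⟨a, mem_univ _, p_inj ha⟩)
  simp only [card_univ, Fintype.card_pi, ZMod.card, prod_const, Fintype.card_fin] at h2
  rw [mul_comm]
  exact h2.trans (Nat.mul_le_mul (by rw [pow_succ]; omega) h1)

end Pool.Agent.Results.MP_1a6900_co.WidePacking
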